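import Pool.Agent.H33.HC.TB

/-!
# Row CKB: the sum over the small primes
-/

set_option autoImplicit false

open NumberField Complex

namespace Pool.Agent.H60.HC

open Pool.Agent.H28.RC Pool.Agent.H37.CV Pool.Agent.H33.HH Pool.Agent.H33.HC

theorem two_le_np {K : Type} [Field K] [NumberField K] (P : PrI K) : (2 : ℝ) ≤ np P := by
  unfold np nm
  have h1 : Ideal.absNorm P.1 ≠ 0 := by
    rw [Ne, Ideal.absNorm_eq_zero_iff]
    exact P.2.2
  have h2 : Ideal.absNorm P.1 ≠ 1 := by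
    rw [Ne, Ideal.absNorm_eq_one_iff]
    exact P.2.1.ne_top
  have h3 : 2 ≤ Ideal.absNorm P.1 := by omega
  exact_mod_cast h3

theorem nS_pos {K : Type} [Field K] [NumberField K] (S : Finset (PrI K)) : 0 < nS np S :=
  Finset.prod_pos fun P _ => by linarith [two_le_np P]

theorem cpow_bound (N : ℝ) (hN : 0 < N) (w : ℂ) (hw : ‖w‖ ≤ 1 / 16) :
    ‖(N : ℂ) ^ (-w) - 1‖ ≤ |Real.log N| * Real.exp |Real.log N| * ‖w‖ := by
  have h0 : (N : ℂ) ≠ 0 := by exact_mod_cast hN.ne'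
  rw [Complex.cpow_def_of_ne_zero h0, ← Complex.ofReal_log hN.le]
  have h1 := Complex.norm_exp_sub_sum_le_norm_mul_exp ((Real.log N : ℂ) * -w) 1
  rw [Finset.sum_range_one, pow_zero, Nat.factorial_zero, Nat.cast_one, div_one, pow_one] at h1
  have h2 : ‖(Real.log N : ℂ) * -w‖ = |Real.log N| * ‖w‖ := by
    rw [norm_mul, norm_neg, Complex.norm_real, Real.norm_eq_abs]
  rw [h2] at h1
  refine h1.trans ?_
  have h3 : |Real.log N| * ‖w‖ ≤ |Real.log N| :=
    mul_le_of_le_one_right (abs_nonneg _) (by linarith)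
  have h4 : Real.exp (|Real.log N| * ‖w‖) ≤ Real.exp |Real.log N| := Real.exp_le_exp.2 h3
  calc |Real.log N| * ‖w‖ * Real.exp (|Real.log N| * ‖w‖)
      ≤ |Real.log N| * ‖w‖ * Real.exp |Real.log N| :=
        mul_le_mul_of_nonneg_left h4 (by positivity)
    _ = |Real.log N| * Real.exp |Real.log N| * ‖w‖ := by ring

theorem pf_CKB (h : Pool.Agent.H33.HH.T_HSU) : T_CKB := by
  intro K _ _ _ P k hSm
  have h1 : (∅ : Finset (PrI K)) ∈ DP K P 1 := by
    unfold DP DS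
    rw [Finset.mem_filter]
    refine ⟨Finset.mem_powerset.2 (Finset.empty_subset _), ?_⟩
    unfold nS
    rw [Finset.prod_empty]
  have h2 : Cp P (⊤ : Ideal (𝓞 K)) := fun p hp => absurd (top_le_iff.1 hp) p.2.1.ne_top
  have h3 := (h K P 1 le_rfl ∅ h1 ⊤ k top_ne_bot h2 hSm).2.1
  obtain ⟨f, hf⟩ : ∃ f : Finset (PrI K) → ℝ, f = fun R =>
    |Real.log (nS np R)| * Real.exp |Real.log (nS np R)| := ⟨_, rfl⟩
  have hf0 : ∀ R, 0 ≤ f R := fun R => by rw [hf]; positivity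
  refine ⟨|rh K| * ∑ R ∈ (SP K P).powerset, |hk P k R| * f R,
    mul_nonneg (abs_nonneg _) (Finset.sum_nonneg fun R _ => mul_nonneg (abs_nonneg _) (hf0 R)),
    fun w hw => ?_⟩
  have h4 : (rh K : ℂ) * ck P k w - (rk K P : ℂ) =
      (rh K : ℂ) * ∑ R ∈ (SP K P).powerset,
        (hk P k R : ℂ) * (((nS np R : ℝ) : ℂ) ^ (-w) - 1) := by
    have h5 : (rk K P : ℂ) = (rh K : ℂ) * ∑ R ∈ (SP K P).powerset,
        (hk P k R : ℂ) := by
      unfold rk
      rw [← h3]
      push_cast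
      rfl
    rw [h5, ← mul_sub]
    unfold ck
    rw [← Finset.sum_sub_distrib]
    congr 1
    refine Finset.sum_congr rfl fun R _ => ?_
    ring
  rw [h4, norm_mul, Complex.norm_real, Real.norm_eq_abs, mul_assoc, Finset.sum_mul]
  refine mul_le_mul_of_nonneg_left ?_ (abs_nonneg _)
  refine (norm_sum_le _ _).trans (Finset.sum_le_sum fun R _ => ?_)
  rw [norm_mul, Complex.norm_real, Real.norm_eq_abs, mul_assoc]
  refine mul_le_mul_of_nonneg_left ?_ (abs_nonneg _)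
  rw [hf]
  exact cpow_bound _ (nS_pos R) w hw

end Pool.Agent.H60.HC
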