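import Pool.Agent.H33.HC.TA

/-!
# Row LGC: the regularised Mellin transform of a product
-/

set_option autoImplicit false

open MeasureTheory Set

namespace Pool.Agent.H60.HC

open Pool.Agent.H33.HH Pool.Agent.H33.HC

theorem int_c1 (K : ℝ) : IntegrableOn (fun u : ℝ => K * u ^ (-(13 / 16) : ℝ)) (Ioc 0 1) := by
  refine Integrable.const_mul ?_ K
  have h := intervalIntegral.intervalIntegrable_rpow' (a := 0) (b := 1) (r := -(13 / 16))
    (by norm_num)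
  exact (intervalIntegrable_iff_integrableOn_Ioc_of_le zero_le_one).1 h

theorem int_c2 (K a : ℝ) (ha : a < -1) : IntegrableOn (fun u : ℝ => K * u ^ a) (Ioi 1) :=
  Integrable.const_mul (integrableOn_Ioi_rpow_of_lt ha zero_lt_one) K

theorem int_of_bdc {h : ℝ → ℂ} {b : ℝ → ℝ} {s : Set ℝ} (hs : MeasurableSet s)
    (hc : ContinuousOn h s) (hb : IntegrableOn b s) (hle : ∀ u ∈ s, ‖h u‖ ≤ b u) :
    IntegrableOn h s := by
  refine Integrable.mono' hb (hc.aestronglyMeasurable hs) ?_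
  rw [ae_restrict_iff' hs]
  exact Filter.Eventually.of_forall hle

theorem norm_int_le {h : ℝ → ℂ} {b : ℝ → ℝ} {s : Set ℝ} (hs : MeasurableSet s)
    (hb : IntegrableOn b s) (hle : ∀ u ∈ s, ‖h u‖ ≤ b u) :
    ‖∫ u in s, h u‖ ≤ ∫ u in s, b u := by
  refine norm_integral_le_of_norm_le hb ?_
  rw [ae_restrict_iff' hs]
  exact Filter.Eventually.of_forall hle

/-- LGC: the regularised Mellin transform of a product. -/
theorem pf_LGC : T_LGC := by
  obtain ⟨I1, hI1⟩ : ∃ I1, I1 = ∫ u in Ioc (0 : ℝ) 1, u ^ (-(13 / 16) : ℝ) := ⟨_, rfl⟩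
  obtain ⟨I2, hI2⟩ : ∃ I2, I2 = ∫ u in Ioi (1 : ℝ), u ^ (-(17 / 16) : ℝ) := ⟨_, rfl⟩
  refine ⟨|I1| + |I2|, by positivity, ?_⟩
  intro f f' g g' T U A B w hT hTU hA hB hf hg hw
  have hU : 0 < U := lt_of_lt_of_le hT hTU
  obtain ⟨q, hq⟩ : ∃ q, q = T / U := ⟨_, rfl⟩
  have hq0 : 0 < q := hq ▸ div_pos hT hU
  have hq1 : q ≤ 1 := by rw [hq, div_le_one hU]; exact hTU
  rw [← hq]
  obtain ⟨v, hv⟩ : ∃ v, v = q ^ (1 / 8 : ℝ) := ⟨_, rfl⟩
  rw [← hv]
  have hv0 : 0 ≤ v := hv ▸ Real.rpow_nonneg hq0.le _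
  obtain ⟨F, hF⟩ : ∃ F : ℝ → ℂ, F = fun u => f (T * u) := ⟨_, rfl⟩
  obtain ⟨G, hG⟩ : ∃ G : ℝ → ℂ, G = fun u => g (T * u) := ⟨_, rfl⟩
  obtain ⟨E, hE⟩ : ∃ E : ℝ → ℂ, E = fun u : ℝ => (u : ℂ) ^ (-1 - w) := ⟨_, rfl⟩
  have e1 : (fun u => f (T * u) * g (T * u)) = fun u => F u * G u := by rw [hF, hG]
  rw [e1, ← hF]
  have hTu : ∀ u : ℝ, T * u / T = u := fun u => by field_simp
  have hTU' : ∀ u : ℝ, T * u / U = q * u := fun u => by rw [hq]; ring
  have cF : ContinuousOn F (Ioi 0) := by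
    rw [hF]
    intro u hu
    have h1 : ContinuousAt f (T * u) := (hf.der _ (mul_pos hT hu)).continuousAt
    exact (ContinuousAt.comp (f := fun u => T * u) h1
      (continuous_const.mul continuous_id).continuousAt).continuousWithinAt
  have cG : ContinuousOn G (Ioi 0) := by
    rw [hG]
    intro u hu
    have h1 : ContinuousAt g (T * u) := (hg.der _ (mul_pos hT hu)).continuousAt
    exact (ContinuousAt.comp (f := fun u => T * u) h1
      (continuous_const.mul continuous_id).continuousAt).continuousWithinAt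
  have cE : ContinuousOn E (Ioi 0) := by
    rw [hE]
    intro u hu
    exact (Complex.continuousAt_ofReal_cpow_const u (-1 - w) (Or.inr hu.ne')).continuousWithinAt
  -- the power
  have hre : -(1 / 16) ≤ w.re ∧ w.re ≤ 1 / 16 := abs_le.1 ((Complex.abs_re_le_norm w).trans hw)
  have nE : ∀ u : ℝ, 0 < u → ‖E u‖ = u ^ (-1 - w.re) := by
    intro u hu
    rw [hE]
    show ‖(u : ℂ) ^ (-1 - w)‖ = _
    rw [Complex.norm_cpow_eq_rpow_re_of_pos hu, Complex.sub_re, Complex.neg_re, Complex.one_re]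
  have E0 : ∀ u : ℝ, 0 < u → u ≤ 1 → ‖E u‖ ≤ u ^ (-(17 / 16) : ℝ) := by
    intro u hu hu1
    rw [nE u hu]
    exact Real.rpow_le_rpow_of_exponent_ge hu hu1 (by linarith [hre.2])
  have E1 : ∀ u : ℝ, 1 ≤ u → ‖E u‖ ≤ u ^ (-(15 / 16) : ℝ) := by
    intro u hu
    rw [nE u (by linarith)]
    exact Real.rpow_le_rpow_of_exponent_le hu (by linarith [hre.1])
  -- the bounds
  have H0 : ∀ u, 0 < u → u ≤ 1 → ‖F u - 1‖ ≤ A * u ^ (1 / 4 : ℝ) := by
    intro u hu hu1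
    have h1 := (hf.n1 (T * u) (mul_pos hT hu) (by nlinarith)).1
    rw [hTu] at h1
    rw [hF]
    exact h1
  have H1 : ∀ u, 1 ≤ u → ‖F u‖ ≤ A * u ^ (-(1 / 4) : ℝ) := by
    intro u hu
    have h1 := (hf.n2 (T * u) (by nlinarith)).1
    rw [hTu] at h1
    rw [hF]
    exact h1
  have G0 : ∀ u, 0 < u → q * u ≤ 1 → ‖G u - 1‖ ≤ B * (q * u) ^ (1 / 4 : ℝ) := by
    intro u hu hu1
    have h2 : T * u ≤ U := by
      have h3 : T * u / U ≤ 1 := by rw [hTU']; exact hu1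
      rwa [div_le_one hU] at h3
    have h1 := (hg.n1 (T * u) (mul_pos hT hu) h2).1
    rw [hTU'] at h1
    rw [hG]
    exact h1
  have G1 : ∀ u, 1 ≤ q * u → ‖G u‖ ≤ B := by
    intro u hu1
    have h2 : U ≤ T * u := by
      have h3 : 1 ≤ T * u / U := by rw [hTU']; exact hu1
      rwa [le_div_iff₀ hU, one_mul] at h3
    have h1 := (hg.n2 (T * u) h2).1
    rw [hTU'] at h1
    rw [hG]
    refine h1.trans (mul_le_of_le_one_right hB ?_)
    exact Real.rpow_le_one_of_one_le_of_nonpos hu1 (by norm_num)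
  have G2 : ∀ u, 0 < u → ‖G u - 1‖ ≤ (1 + B) * (v * u ^ (1 / 8 : ℝ)) := by
    intro u hu
    have h0 : v * u ^ (1 / 8 : ℝ) = (q * u) ^ (1 / 8 : ℝ) := by
      rw [hv, Real.mul_rpow hq0.le hu.le]
    have hqu : 0 < q * u := mul_pos hq0 hu
    rw [h0]
    rcases le_or_gt (q * u) 1 with h | h
    · have h1 := G0 u hu h
      have h2 : (q * u) ^ (1 / 4 : ℝ) ≤ (q * u) ^ (1 / 8 : ℝ) :=
        Real.rpow_le_rpow_of_exponent_ge hqu h (by norm_num)
      have h3 : 0 ≤ (q * u) ^ (1 / 8 : ℝ) := Real.rpow_nonneg hqu.le _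
      refine h1.trans ((mul_le_mul_of_nonneg_left h2 hB).trans ?_)
      exact mul_le_mul_of_nonneg_right (by linarith) h3
    · have h1 := G1 u h.le
      have h2 : ‖G u - 1‖ ≤ 1 + B := by
        refine (norm_sub_le _ _).trans ?_
        rw [norm_one]
        linarith
      have h3 : 1 ≤ (q * u) ^ (1 / 8 : ℝ) := Real.one_le_rpow h.le (by norm_num)
      exact h2.trans (le_mul_of_one_le_right (by linarith) h3)
  have F2 : ∀ u, 0 < u → u ≤ 1 → ‖F u‖ ≤ 1 + A := by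
    intro u hu hu1
    have h1 := H0 u hu hu1
    have h2 : u ^ (1 / 4 : ℝ) ≤ 1 := Real.rpow_le_one hu.le hu1 (by norm_num)
    calc ‖F u‖ = ‖(F u - 1) + 1‖ := by rw [sub_add_cancel]
      _ ≤ ‖F u - 1‖ + ‖(1 : ℂ)‖ := norm_add_le _ _
      _ ≤ 1 + A := by rw [norm_one]; linarith [h1.trans (mul_le_of_le_one_right hA h2)]
  -- first part
  have P1 : ∀ u : ℝ, 0 < u → u ≤ 1 → u ^ (1 / 8 : ℝ) * u ^ (-(17 / 16) : ℝ) =
      u ^ (-(15 / 16) : ℝ) := by
    intro u hu _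
    rw [← Real.rpow_add hu]
    norm_num
  have B0 : ∀ u ∈ Ioc (0 : ℝ) 1, ‖(F u - 1) * E u‖ ≤ A * u ^ (-(13 / 16) : ℝ) := by
    rintro u ⟨hu, hu1⟩
    rw [norm_mul]
    have h4 : u ^ (1 / 4 : ℝ) * u ^ (-(17 / 16) : ℝ) = u ^ (-(13 / 16) : ℝ) := by
      rw [← Real.rpow_add hu]
      norm_num
    have h5 : 0 ≤ u ^ (1 / 4 : ℝ) := Real.rpow_nonneg hu.le _
    calc ‖F u - 1‖ * ‖E u‖ ≤ (A * u ^ (1 / 4 : ℝ)) * u ^ (-(17 / 16) : ℝ) :=
          mul_le_mul (H0 u hu hu1) (E0 u hu hu1) (norm_nonneg _) (by positivity)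
      _ = A * u ^ (-(13 / 16) : ℝ) := by rw [mul_assoc, h4]
  have B1 : ∀ u ∈ Ioc (0 : ℝ) 1, ‖F u * (G u - 1) * E u‖ ≤
      ((1 + A) * B * v) * u ^ (-(13 / 16) : ℝ) := by
    rintro u ⟨hu, hu1⟩
    have hqu : 0 < q * u := mul_pos hq0 hu
    have h1 := G0 u hu (by nlinarith)
    have h2 := F2 u hu hu1
    have h3 : (q * u) ^ (1 / 4 : ℝ) ≤ v * u ^ (1 / 4 : ℝ) := by
      rw [Real.mul_rpow hq0.le hu.le, hv]
      exact mul_le_mul_of_nonneg_right
        (Real.rpow_le_rpow_of_exponent_ge hq0 hq1 (by norm_num)) (Real.rpow_nonneg hu.le _)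
    have h4 : u ^ (1 / 4 : ℝ) * u ^ (-(17 / 16) : ℝ) = u ^ (-(13 / 16) : ℝ) := by
      rw [← Real.rpow_add hu]
      norm_num
    have h5 : 0 ≤ u ^ (1 / 4 : ℝ) := Real.rpow_nonneg hu.le _
    rw [norm_mul, norm_mul]
    calc ‖F u‖ * ‖G u - 1‖ * ‖E u‖ ≤ ((1 + A) * (B * (v * u ^ (1 / 4 : ℝ)))) *
          u ^ (-(17 / 16) : ℝ) := by
          refine mul_le_mul (mul_le_mul h2 (h1.trans (mul_le_mul_of_nonneg_left h3 hB))
            (norm_nonneg _) (by positivity)) (E0 u hu hu1) (norm_nonneg _) (by positivity)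
      _ = (1 + A) * B * v * (u ^ (1 / 4 : ℝ) * u ^ (-(17 / 16) : ℝ)) := by ring
      _ = (1 + A) * B * v * u ^ (-(13 / 16) : ℝ) := by rw [h4]
  -- second part
  have B2 : ∀ u ∈ Ioi (1 : ℝ), ‖F u * E u‖ ≤ A * u ^ (-(19 / 16) : ℝ) := by
    intro u hu
    have hu' : (1 : ℝ) < u := hu
    have hu0 : 0 < u := by linarith
    have h4 : u ^ (-(1 / 4) : ℝ) * u ^ (-(15 / 16) : ℝ) = u ^ (-(19 / 16) : ℝ) := by
      rw [← Real.rpow_add hu0]
      norm_num
    have h5 : 0 ≤ u ^ (-(1 / 4) : ℝ) := Real.rpow_nonneg hu0.le _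
    rw [norm_mul]
    calc ‖F u‖ * ‖E u‖ ≤ (A * u ^ (-(1 / 4) : ℝ)) * u ^ (-(15 / 16) : ℝ) :=
          mul_le_mul (H1 u hu'.le) (E1 u hu'.le) (norm_nonneg _) (by positivity)
      _ = A * u ^ (-(19 / 16) : ℝ) := by rw [mul_assoc, h4]
  have B3 : ∀ u ∈ Ioi (1 : ℝ), ‖F u * (G u - 1) * E u‖ ≤
      (A * (1 + B) * v) * u ^ (-(17 / 16) : ℝ) := by
    intro u hu
    have hu' : (1 : ℝ) < u := hu
    have hu0 : 0 < u := by linarith
    have h4 : u ^ (-(1 / 4) : ℝ) * u ^ (1 / 8 : ℝ) * u ^ (-(15 / 16) : ℝ) =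
        u ^ (-(17 / 16) : ℝ) := by
      rw [← Real.rpow_add hu0, ← Real.rpow_add hu0]
      norm_num
    have h5 : 0 ≤ u ^ (-(1 / 4) : ℝ) := Real.rpow_nonneg hu0.le _
    have h6 : 0 ≤ u ^ (1 / 8 : ℝ) := Real.rpow_nonneg hu0.le _
    rw [norm_mul, norm_mul]
    calc ‖F u‖ * ‖G u - 1‖ * ‖E u‖ ≤ ((A * u ^ (-(1 / 4) : ℝ)) *
          ((1 + B) * (v * u ^ (1 / 8 : ℝ)))) * u ^ (-(15 / 16) : ℝ) :=
          mul_le_mul (mul_le_mul (H1 u hu'.le) (G2 u hu0) (norm_nonneg _) (by positivity))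
            (E1 u hu'.le) (norm_nonneg _) (by positivity)
      _ = A * (1 + B) * v * (u ^ (-(1 / 4) : ℝ) * u ^ (1 / 8 : ℝ) * u ^ (-(15 / 16) : ℝ)) := by
          ring
      _ = A * (1 + B) * v * u ^ (-(17 / 16) : ℝ) := by rw [h4]
  -- integrability
  have sub1 : Ioc (0 : ℝ) 1 ⊆ Ioi 0 := fun u hu => hu.1
  have sub2 : Ioi (1 : ℝ) ⊆ Ioi 0 := Ioi_subset_Ioi zero_le_one
  have J1 : IntegrableOn (fun u => (F u - 1) * E u) (Ioc 0 1) :=
    int_of_bdc measurableSet_Ioc (((cF.mono sub1).sub continuousOn_const).mul (cE.mono sub1))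
      (int_c1 A) B0
  have J2 : IntegrableOn (fun u => F u * (G u - 1) * E u) (Ioc 0 1) :=
    int_of_bdc measurableSet_Ioc (((cF.mono sub1).mul
      ((cG.mono sub1).sub continuousOn_const)).mul (cE.mono sub1)) (int_c1 _) B1
  have J3 : IntegrableOn (fun u => F u * E u) (Ioi 1) :=
    int_of_bdc measurableSet_Ioi ((cF.mono sub2).mul (cE.mono sub2))
      (int_c2 A _ (by norm_num)) B2
  have J4 : IntegrableOn (fun u => F u * (G u - 1) * E u) (Ioi 1) :=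
    int_of_bdc measurableSet_Ioi (((cF.mono sub2).mul
      ((cG.mono sub2).sub continuousOn_const)).mul (cE.mono sub2))
      (int_c2 _ _ (by norm_num)) B3
  have K1 : ∫ u in Ioc (0 : ℝ) 1, (F u * G u - 1) * E u =
      (∫ u in Ioc (0 : ℝ) 1, (F u - 1) * E u) +
        ∫ u in Ioc (0 : ℝ) 1, F u * (G u - 1) * E u := by
    rw [← integral_add J1 J2]
    refine integral_congr_ae (Filter.Eventually.of_forall fun u => ?_)
    simp only
    ring
  have K2 : ∫ u in Ioi (1 : ℝ), F u * G u * E u =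
      (∫ u in Ioi (1 : ℝ), F u * E u) + ∫ u in Ioi (1 : ℝ), F u * (G u - 1) * E u := by
    rw [← integral_add J3 J4]
    refine integral_congr_ae (Filter.Eventually.of_forall fun u => ?_)
    simp only
    ring
  have L1 := norm_int_le measurableSet_Ioc (int_c1 ((1 + A) * B * v)) B1
  have L2 := norm_int_le measurableSet_Ioi (int_c2 (A * (1 + B) * v) _ (by norm_num)) B3
  rw [integral_const_mul, ← hI1] at L1
  rw [integral_const_mul, ← hI2] at L2
  have M1 : Lw w (fun u => F u * G u) = (∫ u in Ioc (0 : ℝ) 1, (F u * G u - 1) * E u) +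
      ∫ u in Ioi (1 : ℝ), F u * G u * E u := by
    rw [hE]
    rfl
  have M2 : Lw w F = (∫ u in Ioc (0 : ℝ) 1, (F u - 1) * E u) +
      ∫ u in Ioi (1 : ℝ), F u * E u := by
    rw [hE]
    rfl
  rw [M1, M2, K1, K2]
  have e2 : ∀ a b c d : ℂ, a + b + (c + d) - (a + c) = b + d := fun a b c d => by ring
  rw [e2]
  refine (norm_add_le _ _).trans ((add_le_add L1 L2).trans ?_)
  have h1 : (1 + A) * B * v * I1 ≤ (1 + A) * (1 + B) * v * |I1| :=
    mul_le_mul (mul_le_mul_of_nonneg_right (mul_le_mul_of_nonneg_left (by linarith)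
      (by linarith)) hv0) (le_abs_self _) ?_ (by positivity)
  · have h2 : A * (1 + B) * v * I2 ≤ (1 + A) * (1 + B) * v * |I2| :=
      mul_le_mul (mul_le_mul_of_nonneg_right (mul_le_mul_of_nonneg_right (by linarith)
        (by linarith)) hv0) (le_abs_self _)
        (by rw [hI2]; exact setIntegral_nonneg measurableSet_Ioi fun u hu =>
          Real.rpow_nonneg (by linarith [show (1 : ℝ) < u from hu]) _) (by positivity)
    calc (1 + A) * B * v * I1 + A * (1 + B) * v * I2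
        ≤ (1 + A) * (1 + B) * v * |I1| + (1 + A) * (1 + B) * v * |I2| := add_le_add h1 h2
      _ = (|I1| + |I2|) * (1 + A) * (1 + B) * v := by ring
  · rw [hI1]
    exact setIntegral_nonneg measurableSet_Ioc fun u hu => Real.rpow_nonneg hu.1.le _

end Pool.Agent.H60.HC
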